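import Pool.Agent.W739.CY.Stm

/-! Project CY, T1: decomposition identity by induction on the length. -/

set_option autoImplicit false

namespace Pool.Agent.W924.CY

open Pool.Agent.W739.CY

variable {C : Type}

theorem spl_congr (w : List C) : ∀ {f g : List C → C → List C → ℝ},
    (∀ v c u, w = v ++ c :: u → f v c u = g v c u) → spl f w = spl g w := by
  induction w with
  | nil =>
    intro f g _
    rfl
  | cons x w ih =>
    intro f g h
    show f [] x w + spl (fun v c u => f (x :: v) c u) w =
      g [] x w + spl (fun v c u => g (x :: v) c u) w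
    rw [h [] x w rfl]
    congr 1
    refine ih fun v c u hw => h (x :: v) c u ?_
    rw [hw]
    rfl

theorem spl_add (w : List C) : ∀ (f g : List C → C → List C → ℝ),
    spl (fun v c u => f v c u + g v c u) w = spl f w + spl g w := by
  induction w with
  | nil =>
    intro f g
    show (0 : ℝ) = 0 + 0
    rw [add_zero]
  | cons x w ih =>
    intro f g
    show (f [] x w + g [] x w) + spl (fun v c u => f (x :: v) c u + g (x :: v) c u) w =
      (f [] x w + spl (fun v c u => f (x :: v) c u) w) +
      (g [] x w + spl (fun v c u => g (x :: v) c u) w)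
    rw [ih (fun v c u => f (x :: v) c u) (fun v c u => g (x :: v) c u)]
    ring

theorem spl_mul (k : ℝ) (w : List C) : ∀ (f : List C → C → List C → ℝ),
    spl (fun v c u => k * f v c u) w = k * spl f w := by
  induction w with
  | nil =>
    intro f
    show (0 : ℝ) = k * 0
    rw [mul_zero]
  | cons x w ih =>
    intro f
    show k * f [] x w + spl (fun v c u => k * f (x :: v) c u) w =
      k * (f [] x w + spl (fun v c u => f (x :: v) c u) w)
    rw [ih (fun v c u => f (x :: v) c u)]
    ring

theorem spl_fub (w : List C) : ∀ (f : List C → C → List C → C → List C → ℝ),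
    spl (fun v c u => spl (fun v1 d v2 => f v1 d v2 c u) v) w =
      spl (fun v1 d w' => spl (fun v2 c u => f v1 d v2 c u) w') w := by
  induction w with
  | nil =>
    intro f
    rfl
  | cons x w ih =>
    intro f
    show (0 : ℝ) + spl (fun v c u => f [] x v c u +
        spl (fun v1 d v2 => f (x :: v1) d v2 c u) v) w =
      spl (fun v2 c u => f [] x v2 c u) w +
        spl (fun v1 d w' => spl (fun v2 c u => f (x :: v1) d v2 c u) w') w
    rw [zero_add, spl_add w (fun v c u => f [] x v c u)
      (fun v c u => spl (fun v1 d v2 => f (x :: v1) d v2 c u) v)]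
    rw [ih (fun v1 d v2 c u => f (x :: v1) d v2 c u)]

theorem spl_append (x y : List C) : ∀ (f : List C → C → List C → ℝ),
    spl f (x ++ y) = spl (fun v c u => f v c (u ++ y)) x + spl (fun v c u => f (x ++ v) c u) y := by
  induction x with
  | nil =>
    intro f
    show spl f y = 0 + spl (fun v c u => f v c u) y
    rw [zero_add]
  | cons z x ih =>
    intro f
    show f [] z (x ++ y) + spl (fun v c u => f (z :: v) c u) (x ++ y) =
      (f [] z (x ++ y) + spl (fun v c u => f (z :: v) c (u ++ y)) x) +
        spl (fun v c u => f (z :: (x ++ v)) c u) y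
    rw [ih (fun v c u => f (z :: v) c u)]
    ring

variable [DecidableEq C]

theorem Pr_split (b : Option C) (c : C) (u : List C) (v : List C) : ∀ a : Option C,
    Pr a (v ++ c :: u) b ↔ Pr a v (some c) ∧ Pr (some c) u b := by
  induction v with
  | nil =>
    intro a
    exact Iff.rfl
  | cons x v ih =>
    intro a
    show (ok a (some x) ∧ Pr (some x) (v ++ c :: u) b) ↔
      (ok a (some x) ∧ Pr (some x) v (some c)) ∧ Pr (some c) u b
    rw [ih (some x)]
    exact and_assoc.symm

/-- the right side -/
noncomputable def Rs (p : ℝ) (a b : Option C) (w : List C) : ℝ :=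
  spl (fun v c u => p ^ v.length * F p a v (some c) * F p (some c) u b) w

theorem del' (hDEL : S_DEL) {p : ℝ} (hp : Good p) (a b : Option C) (w : List C)
    (h : Pr a w b) : (1 - p ^ w.length) * F p a w b =
      spl (fun v _ u => p ^ u.length * F p a (v ++ u) b) w := by
  by_cases hw : w = []
  · subst hw
    show (1 - p ^ 0) * F p a [] b = 0
    rw [pow_zero, sub_self, zero_mul]
  · exact (hDEL C p hp a b).2.2.2.1 w hw h

theorem step (hDEL : S_DEL) {p : ℝ} (hp : Good p) (a b : Option C) (w : List C)
    (h : Pr a w b) (m : ℕ) (hm : w.length = m + 1) :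
    (1 - p ^ m) * Rs p a b w = spl (fun v _ u => p ^ u.length * Rs p a b (v ++ u)) w := by
  -- left side
  have hL : (1 - p ^ m) * Rs p a b w =
      spl (fun v c u => spl (fun u1 _ u2 => p ^ v.length * F p a v (some c) *
        (p ^ u2.length * F p (some c) (u1 ++ u2) b)) u) w +
      spl (fun v c u => spl (fun v1 _ v2 => p ^ u.length * p ^ (v1.length + 1 + v2.length) *
        F p (some c) u b * (p ^ v2.length * F p a (v1 ++ v2) (some c))) v) w := by
    unfold Rs
    rw [← spl_mul, ← spl_add]
    refine spl_congr w fun v c u hw => ?_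
    have hlen : m = v.length + u.length := by
      rw [hw, List.length_append, List.length_cons] at hm
      omega
    have hPr : Pr a v (some c) ∧ Pr (some c) u b := by
      rw [hw] at h
      exact (Pr_split b c u v a).1 h
    have h1 := del' hDEL hp (some c) b u hPr.2
    have h2 := del' hDEL hp a (some c) v hPr.1
    have e1 : spl (fun u1 _ u2 => p ^ v.length * F p a v (some c) *
        (p ^ u2.length * F p (some c) (u1 ++ u2) b)) u =
        p ^ v.length * F p a v (some c) * ((1 - p ^ u.length) * F p (some c) u b) := by
      rw [h1, spl_mul]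
    have e2 : spl (fun v1 _ v2 => p ^ u.length * p ^ (v1.length + 1 + v2.length) *
        F p (some c) u b * (p ^ v2.length * F p a (v1 ++ v2) (some c))) v =
        p ^ u.length * p ^ v.length * F p (some c) u b *
          ((1 - p ^ v.length) * F p a v (some c)) := by
      rw [h2, ← spl_mul]
      refine spl_congr v fun v1 d v2 hv => ?_
      have : v1.length + 1 + v2.length = v.length := by
        rw [hv, List.length_append, List.length_cons]
        omega
      rw [this]
    rw [e1, e2, hlen, pow_add]
    ring
  -- right side
  have hR : spl (fun v _ u => p ^ u.length * Rs p a b (v ++ u)) w =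
      spl (fun v _ u => spl (fun v1 c v2 => p ^ v1.length * F p a v1 (some c) *
        (p ^ u.length * F p (some c) (v2 ++ u) b)) v) w +
      spl (fun v _ u => spl (fun u1 c u2 => p ^ u2.length * p ^ (v.length + 1 + u1.length) *
        F p (some c) u2 b * (p ^ u1.length * F p a (v ++ u1) (some c))) u) w := by
    rw [← spl_add]
    refine spl_congr w fun v d u _ => ?_
    unfold Rs
    rw [spl_append, mul_add, ← spl_mul, ← spl_mul]
    congr 1
    · refine spl_congr v fun v1 c v2 _ => ?_
      ring
    · refine spl_congr u fun u1 c u2 hu => ?_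
      have : u.length = u1.length + 1 + u2.length := by
        rw [hu, List.length_append, List.length_cons]
        omega
      rw [this, List.length_append]
      ring
  rw [hL, hR]
  congr 1
  · exact (spl_fub w (fun v1 c v2 _ u => p ^ v1.length * F p a v1 (some c) *
        (p ^ u.length * F p (some c) (v2 ++ u) b))).symm
  · exact spl_fub w (fun v1 _ v2 c u => p ^ u.length * p ^ (v1.length + 1 + v2.length) *
        F p (some c) u b * (p ^ v2.length * F p a (v1 ++ v2) (some c)))

theorem imp (hDEL : S_DEL) {p : ℝ} (hp : Good p) (a b : Option C) (w : List C)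
    (h : ¬ Pr a w b) : (1 - p ^ w.length) * F p a w b = Rs p a b w := by
  rw [(hDEL C p hp a b).2.1 w h, mul_zero]
  unfold Rs
  have e : spl (fun v c u => p ^ v.length * F p a v (some c) * F p (some c) u b) w =
      spl (fun v c u => (0 : ℝ) * (0 : ℝ)) w := by
    refine spl_congr w fun v c u hw => ?_
    by_cases h1 : Pr a v (some c)
    · have h2 : ¬ Pr (some c) u b := fun h2 => h (by
        rw [hw]
        exact (Pr_split b c u v a).2 ⟨h1, h2⟩)
      rw [(hDEL C p hp (some c) b).2.1 u h2, mul_zero, mul_zero]
    · rw [(hDEL C p hp a (some c)).2.1 v h1, mul_zero, zero_mul, mul_zero]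
  rw [e, spl_mul, zero_mul]

theorem t1_aux (hDEL : S_DEL) {p : ℝ} (hp : Good p) (a b : Option C) (hab : ok a b) (n : ℕ) :
    ∀ w : List C, w.length = n + 1 → (1 - p ^ w.length) * F p a w b = Rs p a b w := by
  induction n with
  | zero =>
    intro w hw
    by_cases h : Pr a w b
    · obtain ⟨c, rfl⟩ := List.length_eq_one_iff.1 hw
      rw [del' hDEL hp a b _ h]
      have h' : ok a (some c) ∧ ok (some c) b := h
      show p ^ 0 * F p a ([] ++ []) b + 0 = p ^ 0 * F p a [] (some c) * F p (some c) [] b + 0
      rw [List.nil_append, (hDEL C p hp a b).1, (hDEL C p hp a (some c)).1,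
        (hDEL C p hp (some c) b).1, if_pos hab, if_pos h'.1, if_pos h'.2]
      ring
    · exact imp hDEL hp a b w h
  | succ n ih =>
    intro w hw
    by_cases h : Pr a w b
    · have h1 := step hDEL hp a b w h (n + 1) hw
      have h2 : spl (fun v _ u => p ^ u.length * Rs p a b (v ++ u)) w =
          (1 - p ^ (n + 1)) * ((1 - p ^ w.length) * F p a w b) := by
        rw [del' hDEL hp a b w h, ← spl_mul]
        refine spl_congr w fun v d u hv => ?_
        have h3 : (v ++ u).length = n + 1 := by
          rw [hv, List.length_append, List.length_cons] at hw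
          rw [List.length_append]
          omega
        rw [← ih (v ++ u) h3, h3]
        ring
      rw [h2] at h1
      exact (mul_left_cancel₀ (hp.sub n) h1).symm
    · exact imp hDEL hp a b w h

/-- T1 -/
theorem t_T1 (hDEL : S_DEL) : S_T1 := by
  intro C _ p hp a b w hw hab
  obtain ⟨n, hn⟩ : ∃ n, w.length = n + 1 :=
    Nat.exists_eq_succ_of_ne_zero (fun h => hw (List.length_eq_zero_iff.1 h))
  exact t1_aux hDEL hp a b hab n w hn

end Pool.Agent.W924.CY
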